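import Pool.Agent.Lib.MP_eee7a8_ag.TB.IfaceB

/-!
# DENSE: the positions of the cusps are dense on both sides
-/

open Matrix

namespace Pool.Agent.Lib.MP_eee7a8_ag.TB.PB.H16

/-- The cusp of a rational number. -/
def ratCusp (q : ℚ) : Cusp where
  x := q.num
  y := q.den
  cop := by
    rw [Int.isCoprime_iff_gcd_eq_one]
    exact q.reduced
  nrm := Or.inl (by exact_mod_cast q.pos)

/-- The values of `rho` are dense in the real line. -/
theorem rho_dense (h : SLZ) (hr : RHO_S) (ht : 2 < h.1.trace) (w1 w2 : ℝ) (hw : w1 < w2) :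
    ∃ v, w1 < rho h v ∧ rho h v < w2 := by
  obtain ⟨-, hbe, -⟩ := hr h ht
  have h0 : sqd h ≠ 0 ∧ (h.1 1 0 : ℝ) ≠ 0 := by
    have := hbe infty
    unfold be at this
    constructor
    · intro h1; rw [h1] at this; simp at this
    · intro h1; rw [h1] at this; simp at this
  obtain ⟨hs, hc⟩ := h0
  set s := sqd h with hsdef
  set r : ℝ := (h.1 1 0 : ℝ) with hrdef
  set k : ℝ := r / s with hk
  have hk0 : k ≠ 0 := div_ne_zero hc hs
  set a : ℝ := ((h.1 0 0 : ℝ) - h.1 1 1 - s) / (2 * r) with ha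
  set b : ℝ := ((h.1 0 0 : ℝ) - h.1 1 1 + s) / (2 * r) with hb
  have hba : k * (b - a) = 1 := by
    rw [hk, ha, hb]; field_simp; ring
  -- choose a target value different from `-1/k`
  obtain ⟨w, hw1, hw2, hw3⟩ : ∃ w, w1 < w ∧ w < w2 ∧ 1 + w * k ≠ 0 := by
    by_cases h1 : 1 + (w1 + w2) / 2 * k = 0
    · refine ⟨(w1 + 2 * w2) / 3, by linarith, by linarith, ?_⟩
      intro h2
      have : ((w1 + 2 * w2) / 3 - (w1 + w2) / 2) * k = 0 := by linarith
      rcases mul_eq_zero.1 this with h3 | h3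
      · linarith
      · exact hk0 h3
    · exact ⟨(w1 + w2) / 2, by linarith, by linarith, h1⟩
  set t : ℝ := (a + w * k * b) / (1 + w * k) with htdef
  have htb : t - b ≠ 0 := by
    have : t - b = -(b - a) / (1 + w * k) := by
      rw [htdef]; field_simp; ring
    rw [this]
    apply div_ne_zero _ hw3
    intro h2
    have : b - a = 0 := by linarith
    rw [this, mul_zero] at hba
    exact zero_ne_one hba
  let R : ℝ → ℝ := fun t => (t - a) / (-k * (t - b))
  have hRt : R t = w := by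
    have h1 : t - b = -(b - a) / (1 + w * k) := by
      rw [htdef]; field_simp; ring
    have h2 : t - a = w * k * (b - a) / (1 + w * k) := by
      rw [htdef]; field_simp; ring
    change (t - a) / (-k * (t - b)) = w
    rw [div_eq_iff (mul_ne_zero (neg_ne_zero.2 hk0) htb), h1, h2]
    field_simp
  have hcont : ContinuousAt R t := by
    apply ContinuousAt.div
    · fun_prop
    · fun_prop
    · exact mul_ne_zero (neg_ne_zero.2 hk0) htb
  have hnhds : R ⁻¹' (Set.Ioo w1 w2) ∈ nhds t := by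
    apply hcont
    rw [hRt]
    exact Ioo_mem_nhds hw1 hw2
  obtain ⟨q, hq⟩ := (Rat.denseRange_cast (𝕜 := ℝ)).exists_mem_open isOpen_interior
    ⟨t, mem_interior_iff_mem_nhds.2 hnhds⟩
  have hq1 : (q : ℝ) ∈ R ⁻¹' (Set.Ioo w1 w2) := interior_subset hq
  have hq' : R q ∈ Set.Ioo w1 w2 := hq1
  refine ⟨ratCusp q, ?_⟩
  have hden : (q.den : ℝ) ≠ 0 := by exact_mod_cast q.den_nz
  have hqe : (q.num : ℝ) = q * q.den := by
    have := Rat.mul_den_eq_num q
    exact_mod_cast this.symm
  have hrq : rho h (ratCusp q) = R q := by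
    change ((q.num : ℤ) - a * ((q.den : ℤ) : ℝ)) /
      (-k * ((q.num : ℤ) - b * ((q.den : ℤ) : ℝ))) = ((q : ℝ) - a) / (-k * ((q : ℝ) - b))
    have h1 : (((q.den : ℕ) : ℤ) : ℝ) = (q.den : ℝ) := by norm_cast
    rw [h1, hqe]
    have h2 : (q : ℝ) * q.den - a * q.den = q.den * (q - a) := by ring
    have h3 : -k * ((q : ℝ) * q.den - b * q.den) = q.den * (-k * (q - b)) := by ring
    rw [h2, h3, mul_div_mul_left _ _ hden]
  rw [hrq]
  exact hq'

theorem dense (hr : RHO_S) : DENSE_S := by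
  intro h ht p p' hp
  obtain ⟨hl, -, hr0, hside, -⟩ := hr h ht
  have hL : 0 < 2 * Real.log (lmd h) := by
    have := Real.log_pos hl
    linarith
  have hw : Real.exp (p * (2 * Real.log (lmd h))) < Real.exp (p' * (2 * Real.log (lmd h))) :=
    Real.exp_lt_exp.2 (mul_lt_mul_of_pos_right hp hL)
  have key : ∀ v, Real.exp (p * (2 * Real.log (lmd h))) < |rho h v| →
      |rho h v| < Real.exp (p' * (2 * Real.log (lmd h))) → p < pos h v ∧ pos h v < p' := by
    intro v h1 h2
    have h0 : 0 < |rho h v| := abs_pos.2 (hr0 v)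
    unfold pos
    rw [lt_div_iff₀ hL, div_lt_iff₀ hL]
    exact ⟨(Real.lt_log_iff_exp_lt h0).2 h1, (Real.log_lt_iff_lt_exp h0).2 h2⟩
  constructor
  · obtain ⟨v, h1, h2⟩ := rho_dense h hr ht _ _ hw
    have h0 : 0 < rho h v := lt_trans (Real.exp_pos _) h1
    refine ⟨v, (hside v).2 h0, key v ?_ ?_⟩
    · rw [abs_of_pos h0]; exact h1
    · rw [abs_of_pos h0]; exact h2
  · obtain ⟨v, h1, h2⟩ := rho_dense h hr ht _ _ (neg_lt_neg hw)
    have h0 : rho h v < 0 := lt_trans h2 (neg_lt_zero.2 (Real.exp_pos _))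
    refine ⟨v, ?_, key v ?_ ?_⟩
    · have h3 : ¬ side h v < 0 := by
        rw [hside v]; exact not_lt.2 h0.le
      have h4 : side h v ≠ 0 := side_ne_zero (lt_of_lt_of_le ht (le_abs_self _)) v
      omega
    · rw [abs_of_neg h0]; linarith
    · rw [abs_of_neg h0]; linarith

end Pool.Agent.Lib.MP_eee7a8_ag.TB.PB.H16
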